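import Pool.Agent.Lib.MP_5c8a88_co.Generic

/-! The two bounds for the games on the generic set. -/

namespace Pool.Agent.Lib.MP_5c8a88_co

set_option linter.unusedSectionVars false

variable {G : Type} [Group G]

/-- The union of the finite sets of the nodes of level `n`. -/
def lev (z : List (Finset G) → G) (n : ℕ) : Set G := {g | ∃ κ, κ.length = n ∧ g ∈ S z κ}

/-- The part of `lev z n` below the nodes of level `j` in `B`. -/
def levB (z : List (Finset G) → G) (n j : ℕ) (B : Set (List (Finset G))) : Set G :=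
  {g | ∃ ρ ∈ B, ρ.length = j ∧ ∃ κ, κ.length = n ∧ ρ <:+ κ ∧ g ∈ S z κ}

/-- The invariant of the strategy. -/
def Inv (z : List (Finset G) → G) (n j : ℕ) (τ : Set G → ℝ) : Prop :=
  ∃ U : Set G, U.Finite ∧ ∃ B : Set (List (Finset G)), B.Finite ∧
    ∀ x : G, 1 - (1 / 2 : ℝ) ^ j < τ {y | x * y ∈ lev z n} → ∃ u ∈ U, x * u ∈ levB z n j B

theorem inv_zero (z : List (Finset G) → G) (n : ℕ) {τ : Set G → ℝ} (hτ : τ ∈ finMeasures G) :
    Inv z n 0 τ := by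
  obtain ⟨k, x, c, hc0, hc1, rfl⟩ := hτ
  refine ⟨Set.range x, Set.finite_range x, {[]}, Set.finite_singleton _, ?_⟩
  intro g hg
  rw [pow_zero, sub_self] at hg
  obtain ⟨j, hj⟩ := exists_lt_of_lt_sum hc0 hc1 hg
  refine ⟨x j, ⟨j, rfl⟩, [], rfl, rfl, ?_⟩
  by_contra hc
  rw [dirac_of_not_mem] at hj
  · exact lt_irrefl _ hj
  · rintro ⟨κ, hκ, hm⟩
    exact hc ⟨κ, hκ, List.nil_suffix, hm⟩

/-- The measure with mass one half at `1` and at `a`. -/
noncomputable def half (a : G) : Set G → ℝ := fun A => ∑ j : Fin 2, (![1 / 2, 1 / 2] : Fin 2 → ℝ) j *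
  dirac ((![1, a] : Fin 2 → G) j) A

theorem half_mem (a : G) : half a ∈ finMeasures G := by
  refine ⟨2, ![1, a], ![1 / 2, 1 / 2], ?_, ?_, rfl⟩
  · intro j
    fin_cases j <;> norm_num
  · rw [Fin.sum_univ_two]
    norm_num

theorem half_shift (a : G) {k : ℕ} (t : Fin k → G) (c : Fin k → ℝ) (τ : Set G → ℝ) (x : G)
    (A : Set G) : conv (half a) (conv (fun B => ∑ j, c j * dirac (t j) B) τ) {y | x * y ∈ A} =
      ∑ j, c j * (1 / 2 * (τ {y | x * t j * y ∈ A} + τ {y | x * a * t j * y ∈ A})) := by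
  unfold half
  rw [conv_shift, Fin.sum_univ_two]
  simp only [Matrix.cons_val_zero, Matrix.cons_val_one, conv_shift, mul_one]
  rw [Finset.mul_sum, Finset.mul_sum, ← Finset.sum_add_distrib]
  apply Finset.sum_congr rfl
  intro j _
  ring

/-- From a large value of the new measure we get two large values of the old one. -/
theorem half_large {a : G} {k : ℕ} {t : Fin k → G} {c : Fin k → ℝ} (hc0 : ∀ j, 0 ≤ c j)
    (hc1 : ∑ j, c j = 1) {τ : Set G → ℝ} (hτ : τ ∈ finMeasures G) {x : G} {A : Set G} {i : ℕ}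
    (h : 1 - (1 / 2 : ℝ) ^ (i + 1) <
      conv (half a) (conv (fun B => ∑ j, c j * dirac (t j) B) τ) {y | x * y ∈ A}) :
    ∃ j, 1 - (1 / 2 : ℝ) ^ i < τ {y | x * t j * y ∈ A} ∧
      1 - (1 / 2 : ℝ) ^ i < τ {y | x * a * t j * y ∈ A} := by
  rw [half_shift] at h
  obtain ⟨j, hj⟩ := exists_lt_of_lt_sum hc0 hc1 h
  have h1 := le_one_of_mem hτ {y | x * t j * y ∈ A}
  have h2 := le_one_of_mem hτ {y | x * a * t j * y ∈ A}
  rw [pow_succ] at hj
  exact ⟨j, by linarith, by linarith⟩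

/-- Every finite set misses some conjugacy class. -/
theorem exists_not_conj [Infinite (ConjClasses G)] {Y : Set G} (hY : Y.Finite) :
    ∃ a : G, ∀ y ∈ Y, ∀ t : G, t⁻¹ * a * t ≠ y := by
  obtain ⟨q, hq⟩ := (hY.image (ConjClasses.mk : G → ConjClasses G)).exists_notMem
  obtain ⟨a, rfl⟩ := ConjClasses.exists_rep q
  refine ⟨a, fun y hy t ht => hq ⟨y, hy, ?_⟩⟩
  rw [ConjClasses.mk_eq_mk_iff_isConj]
  rw [isConj_iff]
  refine ⟨t, ?_⟩
  rw [← ht]
  group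

/-- The set of quotients of elements of the finite sets of nodes in `B`. -/
def quo (z : List (Finset G) → G) (B : Set (List (Finset G))) : Set G :=
  {c | ∃ ρ ∈ B, ∃ σ ∈ B, ∃ s ∈ S z ρ, ∃ t ∈ S z σ, s⁻¹ * t = c}

theorem quo_finite (z : List (Finset G) → G) {B : Set (List (Finset G))} (hB : B.Finite) :
    (quo z B).Finite := by
  have h1 : (⋃ ρ ∈ B, S z ρ).Finite := hB.biUnion fun ρ _ => S_finite z ρ
  refine (Set.Finite.image2 (fun s t : G => s⁻¹ * t) h1 h1).subset ?_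
  rintro c ⟨ρ, hρ, σ, hσ, s, hs, t, ht, rfl⟩
  exact ⟨s, Set.mem_biUnion hρ hs, t, Set.mem_biUnion hσ ht, rfl⟩

/-- The choice of `a` given `U` and `B`. -/
theorem exists_move [Infinite (ConjClasses G)] (z : List (Finset G) → G) {U : Set G}
    (hU : U.Finite) {B : Set (List (Finset G))} (hB : B.Finite) :
    ∃ a : G, ∀ u ∈ U, ∀ v ∈ U, ∀ t : G, u⁻¹ * (t⁻¹ * a * t) * v ∉ quo z B := by
  have h1 : {y : G | ∃ u ∈ U, ∃ v ∈ U, ∃ c ∈ quo z B, y = u * c * v⁻¹}.Finite := by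
    have h2 := Set.Finite.image2 (fun (p : G × G) c => p.1 * c * p.2⁻¹) (hU.prod hU)
      (quo_finite z hB)
    refine h2.subset ?_
    rintro y ⟨u, hu, v, hv, c, hc, rfl⟩
    exact ⟨(u, v), ⟨hu, hv⟩, c, hc, rfl⟩
  obtain ⟨a, ha⟩ := exists_not_conj h1
  refine ⟨a, fun u hu v hv t hq => ha _ ⟨u, hu, v, hv, _, hq, rfl⟩ t ?_⟩
  group

section generic

variable {z : List (Finset G) → G}

/-- The genericity property of the tree. -/
def Gen (z : List (Finset G) → G) : Prop :=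
  ∀ E : Set G, E.Finite → ∃ B : Set (List (Finset G)), B.Finite ∧
      (∀ F ρ, F :: ρ ∈ B → ρ ∈ B) ∧
      (∀ ρ σ, ρ ≠ σ → (ρ ∉ B ∨ σ ∉ B) → ∀ s ∈ S z ρ, ∀ t ∈ S z σ, s⁻¹ * t ∉ E) ∧
      (∀ F ρ, F :: ρ ∉ B → ∀ e ∈ E, (∃ s ∈ S z (F :: ρ), ∃ t ∈ S z (F :: ρ), s⁻¹ * t = e) →
        ∃ s ∈ S z ρ, ∃ t ∈ S z ρ, s⁻¹ * t = e)

theorem append_notMem {B : Set (List (Finset G))} (hB : ∀ F ρ, F :: ρ ∈ B → ρ ∈ B)
    {σ : List (Finset G)} (hσ : σ ∉ B) : ∀ l, l ++ σ ∉ B := by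
  intro l
  induction l with
  | nil => exact hσ
  | cons F l ih => exact fun h => ih (hB F _ h)

theorem descend {B : Set (List (Finset G))} (hB : ∀ F ρ, F :: ρ ∈ B → ρ ∈ B) {e : G}
    (hB2 : ∀ F ρ, F :: ρ ∉ B → (∃ s ∈ S z (F :: ρ), ∃ t ∈ S z (F :: ρ), s⁻¹ * t = e) →
        ∃ s ∈ S z ρ, ∃ t ∈ S z ρ, s⁻¹ * t = e) {σ : List (Finset G)} (hσ : σ ∉ B) :
    ∀ l, (∃ s ∈ S z (l ++ σ), ∃ t ∈ S z (l ++ σ), s⁻¹ * t = e) →
      ∃ s ∈ S z σ, ∃ t ∈ S z σ, s⁻¹ * t = e := by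
  intro l
  induction l with
  | nil => exact fun h => h
  | cons F l ih =>
    intro h
    exact ih (hB2 F (l ++ σ) (append_notMem hB hσ (F :: l)) h)

theorem inv_succ [Infinite (ConjClasses G)] (hz : Gen z) {n j : ℕ} (hj : j < n)
    {τ : Set G → ℝ} (hτ : τ ∈ finMeasures G) (h : Inv z n j τ) :
    ∃ a : G, ∀ θ ∈ finMeasures G, Inv z n (j + 1) (conv (half a) (conv θ τ)) := by
  obtain ⟨U, hU, B, hB, hI⟩ := h
  obtain ⟨a, ha⟩ := exists_move z hU hB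
  refine ⟨a, ?_⟩
  rintro _ ⟨k, t, c, hc0, hc1, rfl⟩
  have hE : {e : G | ∃ i : Fin k, ∃ u ∈ U, ∃ v ∈ U, e = u⁻¹ * ((t i)⁻¹ * a * t i) * v}.Finite := by
    have h2 := Set.Finite.image2 (fun (p : G × G) (i : Fin k) => p.1⁻¹ * ((t i)⁻¹ * a * t i) * p.2)
      (hU.prod hU) (Set.finite_univ (α := Fin k))
    refine h2.subset ?_
    rintro y ⟨i, u, hu, v, hv, rfl⟩
    exact ⟨(u, v), ⟨hu, hv⟩, i, trivial, rfl⟩
  obtain ⟨B', hB', hcl, hg1, hg2⟩ := hz _ hE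
  have hU' : (Set.image2 (fun (i : Fin k) u => t i * u) Set.univ U).Finite :=
    Set.Finite.image2 _ Set.finite_univ hU
  refine ⟨_, hU', B', hB', ?_⟩
  intro x hx
  obtain ⟨i, h1, h2⟩ := half_large hc0 hc1 hτ hx
  obtain ⟨u, hu, ρ, hρB, hρj, κ, hκ, hρκ, hgκ⟩ := hI _ h1
  obtain ⟨v, hv, ρ', hρB', hρj', κ', hκ', hρκ', hgκ'⟩ := hI _ h2
  refine ⟨t i * u, ⟨i, trivial, u, hu, rfl⟩, ?_⟩
  -- the quotient of the two elements
  have hq : (x * t i * u)⁻¹ * (x * a * t i * v) = u⁻¹ * ((t i)⁻¹ * a * t i) * v := by group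
  have hqE : (x * t i * u)⁻¹ * (x * a * t i * v) ∈
      {e : G | ∃ i : Fin k, ∃ u ∈ U, ∃ v ∈ U, e = u⁻¹ * ((t i)⁻¹ * a * t i) * v} :=
    ⟨i, u, hu, v, hv, hq⟩
  have hqY : (x * t i * u)⁻¹ * (x * a * t i * v) ∉ quo z B := by
    rw [hq]
    exact ha u hu v hv (t i)
  -- the node of level `j + 1`
  obtain ⟨l, hl⟩ := hρκ
  have hlne : l ≠ [] := by
    intro h0
    rw [h0, List.nil_append] at hl
    rw [← hl] at hκ
    omega
  obtain ⟨l', F, rfl⟩ : ∃ l' F, l = l' ++ [F] := ⟨l.dropLast, l.getLast hlne,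
    (List.dropLast_append_getLast hlne).symm⟩
  have hl' : l' ++ (F :: ρ) = κ := by
    rw [← hl, List.append_assoc, List.singleton_append]
  by_cases hσ : F :: ρ ∈ B'
  · refine ⟨F :: ρ, hσ, by rw [List.length_cons, hρj], κ, hκ, ⟨l', hl'⟩, ?_⟩
    rw [← mul_assoc]
    exact hgκ
  · exfalso
    have hκB : κ ∉ B' := by
      rw [← hl']
      exact append_notMem hcl hσ l'
    by_cases hκκ : κ = κ'
    · subst hκκ
      rw [← hl'] at hgκ hgκ'
      have h3 := descend (z := z) hcl (e := (x * t i * u)⁻¹ * (x * a * t i * v))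
        (fun F ρ hF hP => hg2 F ρ hF _ hqE hP) hσ l' ⟨_, hgκ, _, hgκ', rfl⟩
      obtain ⟨s, hs, t', ht', hst⟩ := hg2 F ρ hσ _ hqE h3
      exact hqY ⟨ρ, hρB, ρ, hρB, s, hs, t', ht', hst⟩
    · exact hg1 κ κ' hκκ (Or.inl hκB) _ hgκ _ hgκ' hqE

theorem inv_last [Infinite (ConjClasses G)] {n : ℕ}
    {τ : Set G → ℝ} (hτ : τ ∈ finMeasures G) (h : Inv z n n τ) :
    ∃ a : G, ∀ θ ∈ finMeasures G, ∀ x : G,
      conv (half a) (conv θ τ) {y | x * y ∈ lev z n} ≤ 1 - (1 / 2 : ℝ) ^ (n + 1) := by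
  obtain ⟨U, hU, B, hB, hI⟩ := h
  obtain ⟨a, ha⟩ := exists_move z hU hB
  refine ⟨a, ?_⟩
  rintro _ ⟨k, t, c, hc0, hc1, rfl⟩ x
  by_contra hx
  push Not at hx
  obtain ⟨i, h1, h2⟩ := half_large hc0 hc1 hτ hx
  obtain ⟨u, hu, ρ, hρB, hρj, κ, hκ, hρκ, hgκ⟩ := hI _ h1
  obtain ⟨v, hv, ρ', hρB', hρj', κ', hκ', hρκ', hgκ'⟩ := hI _ h2
  have e1 : ρ = κ := hρκ.eq_of_length (by rw [hρj, hκ])
  have e2 : ρ' = κ' := hρκ'.eq_of_length (by rw [hρj', hκ'])
  subst e1 e2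
  have hq : (x * t i * u)⁻¹ * (x * a * t i * v) = u⁻¹ * ((t i)⁻¹ * a * t i) * v := by group
  apply ha u hu v hv (t i)
  rw [← hq]
  exact ⟨ρ, hρB, ρ', hρB', _, hgκ, _, hgκ', rfl⟩

theorem V_upper [Infinite (ConjClasses G)] (hz : Gen z) {n : ℕ} (k : ℕ) :
    ∀ {j : ℕ} {τ : Set G → ℝ}, j ≤ n → n + 1 ≤ j + k → τ ∈ finMeasures G → Inv z n j τ →
      V (lev z n) k τ ≤ 1 - (1 / 2 : ℝ) ^ (n + 1) := by
  induction k with
  | zero => intro j τ h1 h2; omega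
  | succ k ih =>
    intro j τ hj hk hτ hI
    rcases Nat.lt_or_ge j n with hlt | hge
    · obtain ⟨a, ha⟩ := inv_succ hz hlt hτ hI
      refine V_succ_le hτ (half_mem a) fun θ hθ => ?_
      exact ih (j := j + 1) (by omega) (by omega)
        (conv_mem (half_mem a) (conv_mem hθ hτ)) (ha θ hθ)
    · obtain rfl : j = n := le_antisymm hj hge
      obtain ⟨a, ha⟩ := inv_last hτ hI
      refine V_succ_le hτ (half_mem a) fun θ hθ => ?_
      exact V_le_of_shift k (conv_mem (half_mem a) (conv_mem hθ hτ)) (ha θ hθ)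

theorem mono_of_mem {τ : Set G → ℝ} (h : τ ∈ finMeasures G) {A B : Set G} (hAB : A ⊆ B) :
    τ A ≤ τ B := by
  obtain ⟨k, x, c, hc0, hc1, rfl⟩ := h
  apply Finset.sum_le_sum
  intro j _
  apply mul_le_mul_of_nonneg_left _ (hc0 j)
  by_cases hx : x j ∈ A
  · rw [dirac_of_mem hx, dirac_of_mem (hAB hx)]
  · rw [dirac_of_not_mem hx]
    exact dirac_nonneg _ _

theorem dirac_conv (g : G) (τ : Set G → ℝ) (A : Set G) :
    conv (dirac g) τ A = τ {y | g * y ∈ A} := by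
  have h : (dirac g : Set G → ℝ) = fun B => ∑ j : Fin 1, (1 : ℝ) * dirac g B := by
    funext B
    simp
  rw [h, conv_sum (x := fun _ => g) (c := fun _ => 1)]
  simp

theorem V_lower (z : List (Finset G) → G) {n : ℕ} (k : ℕ) :
    ∀ {ρ : List (Finset G)} {τ : Set G → ℝ}, ρ.length + k = n → τ ∈ finMeasures G →
      1 ≤ τ (S z ρ) → 1 ≤ V (lev z n) k τ := by
  classical
  induction k with
  | zero =>
    intro ρ τ hρ hτ h
    exact h.trans (mono_of_mem hτ fun x hx => ⟨ρ, hρ, hx⟩)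
  | succ k ih =>
    intro ρ τ hρ hτ h
    refine le_V_succ hτ fun β hβ => ?_
    have hβ' := hβ
    obtain ⟨m, x, c, hc0, hc1, rfl⟩ := hβ
    set F : Finset G := Finset.univ.image x with hF
    refine ⟨dirac (z (F :: ρ)), dirac_mem _, ?_⟩
    apply ih (ρ := F :: ρ) (by rw [List.length_cons]; omega)
      (conv_mem hβ' (conv_mem (dirac_mem _) hτ))
    rw [conv_sum]
    have h1 : ∀ j, 1 ≤ conv (dirac (z (F :: ρ))) τ {y | x j * y ∈ S z (F :: ρ)} := by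
      intro j
      rw [dirac_conv]
      refine h.trans (mono_of_mem hτ fun y hy => ?_)
      refine ⟨x j, ?_, y, hy, ?_⟩
      · rw [hF]
        exact Finset.mem_image_of_mem x (Finset.mem_univ j)
      · rw [mul_assoc]
    calc (1 : ℝ) = ∑ j, c j * 1 := by simp only [mul_one, hc1]
      _ ≤ _ := Finset.sum_le_sum fun j _ => mul_le_mul_of_nonneg_left (h1 j) (hc0 j)

/-- The separation of the values of the games. -/
theorem V_separation [Infinite (ConjClasses G)] (hz : Gen z) {n m : ℕ} (h : n < m) :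
    V (lev z n) m (dirac 1) < V (lev z n) n (dirac 1) := by
  have h1 : 1 ≤ V (lev z n) n (dirac 1) := by
    apply V_lower z n (ρ := []) (by simp) (dirac_mem 1)
    rw [dirac_of_mem]
    exact Set.mem_singleton 1
  have h2 : V (lev z n) m (dirac 1) ≤ 1 - (1 / 2 : ℝ) ^ (n + 1) :=
    V_upper hz m (j := 0) (Nat.zero_le _) (by omega) (dirac_mem 1) (inv_zero z n (dirac_mem 1))
  have h3 : (0 : ℝ) < (1 / 2) ^ (n + 1) := by positivity
  linarith

end generic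

end Pool.Agent.Lib.MP_5c8a88_co
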