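import Mathlib

/-! Densities, measures, convolution, extremal densities on a group. -/

namespace Pool.Agent.Lib.MP_5c8a88_co

variable {G : Type} [Group G]

/-- A density on `G`: a monotone set function with `ν ∅ = 0` and `ν G = 1`. -/
def IsDensity (ν : Set G → ℝ) : Prop :=
  (∀ A B : Set G, A ⊆ B → ν A ≤ ν B) ∧ ν ∅ = 0 ∧ ν Set.univ = 1

/-- A measure on `G`: a density that is finitely additive on disjoint sets. -/
def IsMeasure (ν : Set G → ℝ) : Prop :=
  IsDensity ν ∧ ∀ A B : Set G, Disjoint A B → ν (A ∪ B) = ν A + ν B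

open Classical in
/-- The point mass at `x`. -/
noncomputable def dirac (x : G) (A : Set G) : ℝ := if x ∈ A then 1 else 0

/-- `P(G)`: all measures on `G`. -/
def allMeasures (G : Type) [Group G] : Set (Set G → ℝ) := {ν | IsMeasure ν}

/-- `P_ω(G)`: the finite convex combinations of point masses. -/
def finMeasures (G : Type) [Group G] : Set (Set G → ℝ) :=
  {ν | ∃ (k : ℕ) (x : Fin k → G) (c : Fin k → ℝ), (∀ j, 0 ≤ c j) ∧ ∑ j, c j = 1 ∧
    ν = fun A => ∑ j, c j * dirac (x j) A}

/-- `P_u(G)`: the uniform measures on finite nonempty sets. -/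
def uniMeasures (G : Type) [Group G] : Set (Set G → ℝ) :=
  {ν | ∃ F : Finset G, F.Nonempty ∧ ν = fun A => (F.card : ℝ)⁻¹ * ∑ x ∈ F, dirac x A}

/-- The product `μ * ν`: for `μ = ∑ j, c j • δ (g j)` this is
`(μ * ν)(A) = ∑ j, c j * ν ((g j)⁻¹ A)`, i.e. the sum of `μ {g} * ν (g⁻¹ A)` over all `g`. -/
noncomputable def conv (μ ν : Set G → ℝ) (A : Set G) : ℝ :=
  ∑ᶠ g : G, μ {g} * ν {x | g * x ∈ A}

/-- The product `ν 1 * (ν 2 * (⋯ * ν n))` of a nonempty list of measures. -/
noncomputable def prodList : List (Set G → ℝ) → Set G → ℝ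
  | [] => dirac 1
  | [μ] => μ
  | μ :: ν :: l => conv μ (prodList (ν :: l))

/-- The five letters. -/
inductive Letter | u | i | s | I | S

/-- The set over which the operator of a letter is taken. -/
def Letter.dom (G : Type) [Group G] : Letter → Set (Set G → ℝ)
  | Letter.u => uniMeasures G
  | Letter.i => finMeasures G
  | Letter.s => finMeasures G
  | Letter.I => allMeasures G
  | Letter.S => allMeasures G

/-- The operator of a letter: infimum for `u, i, I`, supremum for `s, S`, over its domain. -/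
noncomputable def Letter.op (a : Letter) (f : a.dom G → ℝ) : ℝ :=
  match a, f with
  | Letter.u, f => ⨅ ν, f ν
  | Letter.i, f => ⨅ ν, f ν
  | Letter.s, f => ⨆ ν, f ν
  | Letter.I, f => ⨅ ν, f ν
  | Letter.S, f => ⨆ ν, f ν

/-- The operators of `e 0, e 1, …, e (n-1)` applied to the variables `ν 0, …, ν (n-1)` of `Φ`,
the operator of `e 0` being the outermost one. -/
noncomputable def value : (n : ℕ) → (Fin n → Letter) → ((Fin n → Set G → ℝ) → ℝ) → ℝ
  | 0, _, Φ => Φ Fin.elim0
  | n + 1, e, Φ => (e 0).op (G := G) fun ν =>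
      value n (fun j => e j.succ) fun t => Φ (Fin.cons (ν : Set G → ℝ) t)

/-- The extremal density `e_s`: the operators applied to
`(ν (s 0) * ν (s 1) * ⋯ * ν (s (n-1))) (A)`. -/
noncomputable def extremal {n : ℕ} (s : Equiv.Perm (Fin n)) (e : Fin n → Letter) (A : Set G) : ℝ :=
  value n e fun ν => prodList (List.ofFn fun l => ν (s l)) A

/-- The set `𝓔(G)` of all extremal densities on `G`: the letters `I`, `S` may only belong to the
variable `ν (s l)` of the rightmost factor. -/
def extremalDensities (G : Type) [Group G] : Set (Set G → ℝ) :=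
  {d | ∃ (n : ℕ) (s : Equiv.Perm (Fin n)) (e : Fin n → Letter), 1 ≤ n ∧
    (∀ l : Fin n, e (s l) = Letter.I ∨ e (s l) = Letter.S → (l : ℕ) + 1 = n) ∧ d = extremal s e}

/-- A group is amenable if some measure is invariant under left translations. -/
def Amenable (G : Type) [Group G] : Prop :=
  ∃ μ : Set G → ℝ, IsMeasure μ ∧ ∀ (g : G) (A : Set G), μ ((fun x => g * x) '' A) = μ A

end Pool.Agent.Lib.MP_5c8a88_co
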