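import Pool.Agent.Lib.MP_5c8a88_co.Link

/-! The group of finitary permutations of the natural numbers. -/

namespace Pool.Agent.Lib.MP_5c8a88_co

open Filter Topology

section amenable

variable {G : Type} [Group G]

/-- A group with an exhausting sequence of finite subgroups is amenable. -/
theorem amenable_of_exhaustion (H : ℕ → Subgroup G) (hfin : ∀ n, (H n : Set G).Finite)
    (hex : ∀ g, ∀ᶠ n in atTop, g ∈ H n) : Amenable G := by
  let a : Set G → ℕ → ℝ := fun A n => ((A ∩ H n).ncard : ℝ) / ((H n : Set G).ncard : ℝ)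
  have hpos : ∀ n, (0 : ℝ) < ((H n : Set G).ncard : ℝ) := by
    intro n
    have : 0 < (H n : Set G).ncard := by
      rw [Set.ncard_pos (hfin n)]
      exact ⟨1, (H n).one_mem⟩
    exact_mod_cast this
  have h0 : ∀ A n, 0 ≤ a A n := fun A n => div_nonneg (Nat.cast_nonneg _) (hpos n).le
  have hmono : ∀ A B : Set G, A ⊆ B → ∀ n, a A n ≤ a B n := by
    intro A B hAB n
    apply div_le_div_of_nonneg_right _ (hpos n).le
    exact_mod_cast Set.ncard_le_ncard (Set.inter_subset_inter_left _ hAB)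
      ((hfin n).subset Set.inter_subset_right)
  have huniv : ∀ n, a Set.univ n = 1 := by
    intro n
    show (((Set.univ : Set G) ∩ H n).ncard : ℝ) / _ = 1
    rw [Set.univ_inter]
    exact div_self (hpos n).ne'
  have h1 : ∀ A n, a A n ≤ 1 := by
    intro A n
    rw [← huniv n]
    exact hmono _ _ (Set.subset_univ _) n
  have hlim : ∀ A, ∃ L : ℝ, Tendsto (a A) (hyperfilter ℕ : Filter ℕ) (𝓝 L) := by
    intro A
    have hc : IsCompact (Set.Icc (0 : ℝ) 1) := isCompact_Icc
    obtain ⟨L, -, hL⟩ := hc.ultrafilter_le_nhds ((hyperfilter ℕ).map (a A)) (by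
      rw [Filter.le_principal_iff]
      exact Filter.univ_mem' (f := (hyperfilter ℕ : Filter ℕ)) (s := (a A) ⁻¹' Set.Icc (0 : ℝ) 1)
        fun n => ⟨h0 A n, h1 A n⟩)
    exact ⟨L, hL⟩
  choose μ hμ using hlim
  refine ⟨μ, ⟨⟨?_, ?_, ?_⟩, ?_⟩, ?_⟩
  · intro A B hAB
    exact le_of_tendsto_of_tendsto' (hμ A) (hμ B) (hmono A B hAB)
  · refine tendsto_nhds_unique (hμ ∅) ?_
    have : a ∅ = fun _ => 0 := by
      funext n
      show (((∅ : Set G) ∩ H n).ncard : ℝ) / _ = 0
      rw [Set.empty_inter, Set.ncard_empty, Nat.cast_zero, zero_div]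
    rw [this]
    exact tendsto_const_nhds
  · refine tendsto_nhds_unique (hμ Set.univ) ?_
    have : a Set.univ = fun _ => 1 := funext huniv
    rw [this]
    exact tendsto_const_nhds
  · intro A B hAB
    refine tendsto_nhds_unique (hμ (A ∪ B)) ?_
    have : a (A ∪ B) = fun n => a A n + a B n := by
      funext n
      show (((A ∪ B) ∩ H n).ncard : ℝ) / _ = ((A ∩ H n).ncard : ℝ) / _ + ((B ∩ H n).ncard : ℝ) / _
      rw [← add_div, Set.union_inter_distrib_right, Set.ncard_union_eq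
        (hAB.mono Set.inter_subset_left Set.inter_subset_left)
        ((hfin n).subset Set.inter_subset_right) ((hfin n).subset Set.inter_subset_right)]
      push_cast
      rfl
    rw [this]
    exact (hμ A).add (hμ B)
  · intro g A
    refine tendsto_nhds_unique (hμ _) ((hμ A).congr' ?_)
    have h2 : ∀ᶠ n in (hyperfilter ℕ : Filter ℕ), g ∈ H n :=
      (hex g).filter_mono Nat.hyperfilter_le_atTop
    filter_upwards [h2] with n hn
    show ((A ∩ H n).ncard : ℝ) / _ = ((((fun x => g * x) '' A) ∩ H n).ncard : ℝ) / _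
    have h3 : ((fun x => g * x) '' A) ∩ H n = (fun x => g * x) '' (A ∩ H n) := by
      ext y
      constructor
      · rintro ⟨⟨x, hx, rfl⟩, hy⟩
        exact ⟨x, ⟨hx, by simpa using (H n).mul_mem ((H n).inv_mem hn) hy⟩, rfl⟩
      · rintro ⟨x, ⟨hx, hx'⟩, rfl⟩
        exact ⟨⟨x, hx, rfl⟩, (H n).mul_mem hn hx'⟩
    rw [h3, Set.ncard_image_of_injective _ (mul_right_injective g)]

end amenable

/-- The finitary permutations of `ℕ`. -/
def FinPerm : Subgroup (Equiv.Perm ℕ) where
  carrier := {σ | ∃ n : ℕ, ∀ x, n ≤ x → σ x = x}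
  one_mem' := ⟨0, fun _ _ => rfl⟩
  mul_mem' := by
    rintro σ τ ⟨n, hn⟩ ⟨m, hm⟩
    refine ⟨max n m, fun x hx => ?_⟩
    rw [Equiv.Perm.mul_apply, hm x ((le_max_right _ _).trans hx),
      hn x ((le_max_left _ _).trans hx)]
  inv_mem' := by
    rintro σ ⟨n, hn⟩
    refine ⟨n, fun x hx => ?_⟩
    rw [Equiv.Perm.inv_eq_iff_eq]
    exact (hn x hx).symm

/-- The subgroup of the permutations that fix all `x ≥ n`. -/
def FinPerm.upTo (n : ℕ) : Subgroup FinPerm where
  carrier := {σ | ∀ x, n ≤ x → (σ : Equiv.Perm ℕ) x = x}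
  one_mem' := fun _ _ => rfl
  mul_mem' := by
    intro σ τ hn hm x hx
    show (σ : Equiv.Perm ℕ) ((τ : Equiv.Perm ℕ) x) = x
    rw [hm x hx, hn x hx]
  inv_mem' := by
    intro σ hn x hx
    show (σ : Equiv.Perm ℕ)⁻¹ x = x
    rw [Equiv.Perm.inv_eq_iff_eq]
    exact (hn x hx).symm

theorem FinPerm.upTo_finite (n : ℕ) : (FinPerm.upTo n : Set FinPerm).Finite := by
  have h1 : Finite {f : Equiv.Perm ℕ // ∀ a, ¬ a < n → f a = a} :=
    Finite.of_equiv _ (Equiv.Perm.subtypeEquivSubtypePerm fun x : ℕ => x < n)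
  have h2 : {f : Equiv.Perm ℕ | ∀ a, ¬ a < n → f a = a}.Finite := h1
  apply Set.Finite.of_finite_image (f := fun σ : FinPerm => (σ : Equiv.Perm ℕ))
  · apply h2.subset
    rintro _ ⟨σ, hσ, rfl⟩ a ha
    exact hσ a (not_lt.1 ha)
  · exact Subtype.val_injective.injOn

theorem FinPerm.eventually (g : FinPerm) : ∀ᶠ n in atTop, g ∈ FinPerm.upTo n := by
  obtain ⟨m, hm⟩ := g.2
  filter_upwards [eventually_ge_atTop m] with n hn
  exact fun x hx => hm x (hn.trans hx)

theorem FinPerm.amenable : Amenable FinPerm :=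
  amenable_of_exhaustion FinPerm.upTo FinPerm.upTo_finite FinPerm.eventually

instance : Countable FinPerm := by
  rw [← Set.countable_univ_iff]
  have h1 : (⋃ n, (FinPerm.upTo n : Set FinPerm)).Countable :=
    Set.countable_iUnion fun n => (FinPerm.upTo_finite n).countable
  refine h1.mono fun g _ => ?_
  obtain ⟨n, hn⟩ := (FinPerm.eventually g).exists
  exact Set.mem_iUnion.2 ⟨n, hn⟩

/-- The transposition of two points. -/
def FinPerm.swap (y w : ℕ) : FinPerm := ⟨Equiv.swap y w, max y w + 1, fun x hx =>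
  Equiv.swap_apply_of_ne_of_ne (by have := le_max_left y w; omega)
    (by have := le_max_right y w; omega)⟩

theorem FinPerm.icc : ICC FinPerm := by
  intro g hg
  obtain ⟨x, hx⟩ : ∃ x, (g : Equiv.Perm ℕ) x ≠ x := by
    by_contra hc
    push Not at hc
    exact hg (Subtype.ext (Equiv.ext hc))
  suffices hinj : Function.Injective fun k : ℕ => FinPerm.swap ((g : Equiv.Perm ℕ) x) (x + 1 + k) *
      g * (FinPerm.swap ((g : Equiv.Perm ℕ) x) (x + 1 + k))⁻¹ by
    refine Set.infinite_of_injective_forall_mem hinj ?_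
    intro k
    exact ⟨FinPerm.swap ((g : Equiv.Perm ℕ) x) (x + 1 + k), rfl⟩
  have key : ∀ k : ℕ, ((FinPerm.swap ((g : Equiv.Perm ℕ) x) (x + 1 + k) * g *
      (FinPerm.swap ((g : Equiv.Perm ℕ) x) (x + 1 + k))⁻¹ : FinPerm) : Equiv.Perm ℕ) x =
        x + 1 + k := by
    intro k
    show Equiv.swap ((g : Equiv.Perm ℕ) x) (x + 1 + k) ((g : Equiv.Perm ℕ)
      ((Equiv.swap ((g : Equiv.Perm ℕ) x) (x + 1 + k))⁻¹ x)) = x + 1 + k
    rw [Equiv.swap_inv, Equiv.swap_apply_of_ne_of_ne (Ne.symm hx) (by omega),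
      Equiv.swap_apply_left]
  intro k l hkl
  have h1 := key k
  have h2 := key l
  have h3 : FinPerm.swap ((g : Equiv.Perm ℕ) x) (x + 1 + k) * g *
      (FinPerm.swap ((g : Equiv.Perm ℕ) x) (x + 1 + k))⁻¹ =
      FinPerm.swap ((g : Equiv.Perm ℕ) x) (x + 1 + l) * g *
      (FinPerm.swap ((g : Equiv.Perm ℕ) x) (x + 1 + l))⁻¹ := hkl
  rw [h3, h2] at h1
  omega

/-- The involution exchanging `2 i` and `2 i + 1` for `i < n`. -/
def FinPerm.pairs (n : ℕ) : FinPerm :=
  ⟨Function.Involutive.toPerm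
    (fun x => if x < 2 * n then (if x % 2 = 0 then x + 1 else x - 1) else x) (by
      intro x
      dsimp only
      split_ifs <;> omega), 2 * n, fun x hx => by
      show (if x < 2 * n then (if x % 2 = 0 then x + 1 else x - 1) else x) = x
      rw [if_neg (by omega)]⟩

theorem FinPerm.pairs_moved (n : ℕ) :
    {x | (FinPerm.pairs n : Equiv.Perm ℕ) x ≠ x} = {x | x < 2 * n} := by
  ext x
  show (if x < 2 * n then (if x % 2 = 0 then x + 1 else x - 1) else x) ≠ x ↔ x < 2 * n
  split_ifs <;> omega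

theorem FinPerm.moved_conj (g h : FinPerm) :
    {x | ((h * g * h⁻¹ : FinPerm) : Equiv.Perm ℕ) x ≠ x}.ncard =
      {x | (g : Equiv.Perm ℕ) x ≠ x}.ncard := by
  have h1 : {x | ((h * g * h⁻¹ : FinPerm) : Equiv.Perm ℕ) x ≠ x} =
      (h : Equiv.Perm ℕ) '' {x | (g : Equiv.Perm ℕ) x ≠ x} := by
    ext x
    constructor
    · intro hx
      refine ⟨(h : Equiv.Perm ℕ)⁻¹ x, ?_, by simp⟩
      intro hc
      apply hx
      show (h : Equiv.Perm ℕ) ((g : Equiv.Perm ℕ) ((h : Equiv.Perm ℕ)⁻¹ x)) = x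
      rw [hc]
      simp
    · rintro ⟨y, hy, rfl⟩ hc
      apply hy
      have hc' : (h : Equiv.Perm ℕ) ((g : Equiv.Perm ℕ) ((h : Equiv.Perm ℕ)⁻¹
        ((h : Equiv.Perm ℕ) y))) = (h : Equiv.Perm ℕ) y := hc
      have hs : (h : Equiv.Perm ℕ)⁻¹ ((h : Equiv.Perm ℕ) y) = y := by simp
      rw [hs] at hc'
      exact (h : Equiv.Perm ℕ).injective hc'
  rw [h1]
  exact Set.ncard_image_of_injective _ (h : Equiv.Perm ℕ).injective

instance : Infinite (ConjClasses FinPerm) := by
  apply Infinite.of_injective (fun n : ℕ => ConjClasses.mk (FinPerm.pairs n))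
  intro n m hnm
  have h1 : IsConj (FinPerm.pairs n) (FinPerm.pairs m) := ConjClasses.mk_eq_mk_iff_isConj.1 hnm
  obtain ⟨c, hc⟩ := isConj_iff.1 h1
  have h2 := FinPerm.moved_conj (FinPerm.pairs n) c
  rw [hc, FinPerm.pairs_moved, FinPerm.pairs_moved] at h2
  have h3 : ∀ k : ℕ, {x : ℕ | x < k}.ncard = k := by
    intro k
    rw [show {x : ℕ | x < k} = (Finset.range k : Set ℕ) by ext; simp]
    rw [Set.ncard_coe_finset, Finset.card_range]
  rw [h3, h3] at h2
  omega

/-- The finitary symmetric group has infinitely many extremal densities. -/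
theorem FinPerm.infinite : (extremalDensities FinPerm).Infinite := infinite_of_icc FinPerm.icc

end Pool.Agent.Lib.MP_5c8a88_co
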