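import Pool.Agent.Lib.MP_5c8a88_co.Meas

/-! A generic labelled tree of finite sets in an ICC group. -/

namespace Pool.Agent.Lib.MP_5c8a88_co

set_option linter.unusedSectionVars false

open scoped Pointwise

variable {G : Type} [Group G]

/-- Sets covered by finitely many left cosets of subgroups of infinite index. -/
def Negl (B : Set G) : Prop :=
  ∃ L : List (G × Subgroup G), (∀ p ∈ L, ¬ p.2.FiniteIndex) ∧ ∀ x ∈ B, ∃ p ∈ L, x ∈ p.1 • (p.2 : Set G)

theorem Negl.mono {B C : Set G} (h : Negl C) (hBC : B ⊆ C) : Negl B := by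
  obtain ⟨L, h1, h2⟩ := h
  exact ⟨L, h1, fun x hx => h2 x (hBC hx)⟩

theorem Negl.empty : Negl (∅ : Set G) := ⟨[], by simp, by simp⟩

theorem Negl.union {B C : Set G} (hB : Negl B) (hC : Negl C) : Negl (B ∪ C) := by
  obtain ⟨L, h1, h2⟩ := hB
  obtain ⟨M, h3, h4⟩ := hC
  refine ⟨L ++ M, ?_, ?_⟩
  · intro p hp
    rcases List.mem_append.1 hp with hp | hp
    · exact h1 p hp
    · exact h3 p hp
  · rintro x (hx | hx)
    · obtain ⟨p, hp, hxp⟩ := h2 x hx
      exact ⟨p, List.mem_append.2 (Or.inl hp), hxp⟩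
    · obtain ⟨p, hp, hxp⟩ := h4 x hx
      exact ⟨p, List.mem_append.2 (Or.inr hp), hxp⟩

theorem Negl.biUnion {ι : Type} {I : Set ι} (hI : I.Finite) {B : ι → Set G}
    (h : ∀ i ∈ I, Negl (B i)) : Negl {x | ∃ i ∈ I, x ∈ B i} := by
  induction I, hI using Set.Finite.induction_on with
  | empty => exact Negl.empty.mono (by rintro x ⟨i, hi, _⟩; exact absurd hi (by simp))
  | @insert a s _ _ ih =>
    refine ((h a (Set.mem_insert _ _)).union (ih fun i hi => h i (Set.mem_insert_of_mem _ hi))).mono ?_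
    rintro x ⟨i, hi, hx⟩
    rcases Set.mem_insert_iff.1 hi with rfl | hi
    · exact Or.inl hx
    · exact Or.inr ⟨i, hi, hx⟩

theorem not_negl_univ : ¬ Negl (Set.univ : Set G) := by
  classical
  rintro ⟨L, h1, h2⟩
  have := Subgroup.exists_finiteIndex_of_leftCoset_cover (G := G) (ι := G × Subgroup G)
    (H := fun p => p.2) (g := fun p => p.1) (s := L.toFinset) (by
      rw [Set.eq_univ_iff_forall]
      intro x
      obtain ⟨p, hp, hx⟩ := h2 x trivial
      rw [Set.mem_iUnion₂]
      exact ⟨p, List.mem_toFinset.2 hp, hx⟩)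
  obtain ⟨p, hp, hf⟩ := this
  exact h1 p (List.mem_toFinset.1 hp) hf

/-- The conjugacy class of every nontrivial element is infinite. -/
def ICC (G : Type) [Group G] : Prop := ∀ g : G, g ≠ 1 → {x : G | ∃ z : G, x = z * g * z⁻¹}.Infinite

theorem centralizer_infinite {G : Type} [Group G] (h : ICC G) {e : G} (he : e ≠ 1) :
    ¬ (Subgroup.centralizer {e}).FiniteIndex := by
  intro hf
  apply h e he
  have hfin : Finite (G ⧸ Subgroup.centralizer {e}) := Subgroup.finite_quotient_of_finiteIndex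
  have h1 : {x : G | ∃ z : G, x = z * e * z⁻¹} ⊆
      Set.range (fun q : G ⧸ Subgroup.centralizer {e} => q.out * e * q.out⁻¹) := by
    rintro x ⟨z, rfl⟩
    refine ⟨(z : G ⧸ Subgroup.centralizer {e}), ?_⟩
    obtain ⟨c, hc⟩ := QuotientGroup.mk_out_eq_mul (Subgroup.centralizer {e}) z
    have hc' : (c : G) * e = e * c := Subgroup.mem_centralizer_singleton_iff.1 c.2
    show (z : G ⧸ Subgroup.centralizer {e}).out * e * (z : G ⧸ Subgroup.centralizer {e}).out⁻¹ =
      z * e * z⁻¹
    rw [hc]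
    have : (c : G) * e * (c : G)⁻¹ = e := by
      rw [hc']; group
    calc z * (c : G) * e * (z * c)⁻¹ = z * (c * e * (c : G)⁻¹) * z⁻¹ := by group
      _ = z * e * z⁻¹ := by rw [this]
  exact (Set.finite_range _).subset h1

theorem ICC.infinite {G : Type} [Group G] (h : ICC G) [Nontrivial G] : Infinite G := by
  obtain ⟨g, hg⟩ := exists_ne (1 : G)
  have := h g hg
  rw [← Set.infinite_univ_iff]
  exact this.mono (Set.subset_univ _)

theorem negl_singleton [Infinite G] (a : G) : Negl ({a} : Set G) := by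
  refine ⟨[(a, ⊥)], ?_, ?_⟩
  · intro p hp
    rw [List.mem_singleton] at hp
    subst hp
    intro hf
    have h1 : (⊥ : Subgroup G).index ≠ 0 := hf.index_ne_zero
    rw [Subgroup.index_bot] at h1
    exact h1 Nat.card_eq_zero_of_infinite
  · intro x hx
    refine ⟨_, List.mem_singleton.2 rfl, ?_⟩
    rw [Set.mem_singleton_iff.1 hx]
    exact ⟨1, by simp, by simp⟩

theorem negl_conj (h : ICC G) {f : G} (hf : f ≠ 1) (e : G) : Negl {z : G | z⁻¹ * f * z = e} := by
  by_cases hne : ∃ z₀ : G, z₀⁻¹ * f * z₀ = e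
  · obtain ⟨z₀, hz₀⟩ := hne
    have he : e ≠ 1 := by
      intro h1
      apply hf
      rw [h1] at hz₀
      calc f = z₀ * (z₀⁻¹ * f * z₀) * z₀⁻¹ := by group
        _ = 1 := by rw [hz₀]; group
    refine ⟨[(z₀, Subgroup.centralizer {e})], ?_, ?_⟩
    · intro p hp
      rw [List.mem_singleton] at hp
      subst hp
      exact centralizer_infinite h he
    · intro z hz
      refine ⟨_, List.mem_singleton.2 rfl, ?_⟩
      refine ⟨z₀⁻¹ * z, ?_, by simp⟩
      show z₀⁻¹ * z ∈ Subgroup.centralizer {e}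
      rw [Subgroup.mem_centralizer_singleton_iff]
      have hz' : z⁻¹ * f * z = e := hz
      have h1 : f = z * e * z⁻¹ := by rw [← hz']; group
      have h2 : e = z₀⁻¹ * (z * e * z⁻¹) * z₀ := by rw [← h1, hz₀]
      symm
      calc e * (z₀⁻¹ * z) = z₀⁻¹ * (z * e * z⁻¹) * z₀ * (z₀⁻¹ * z) := by rw [← h2]
        _ = z₀⁻¹ * z * e := by group
  · refine Negl.empty.mono ?_
    intro z hz
    exact absurd ⟨z, hz⟩ hne

/-- The finite sets attached to the nodes of the tree. -/
def S (z : List (Finset G) → G) : List (Finset G) → Set G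
  | [] => {1}
  | F :: ρ => {x | ∃ f ∈ F, ∃ s ∈ S z ρ, x = f * z (F :: ρ) * s}

theorem S_finite (z : List (Finset G) → G) : ∀ ρ, (S z ρ).Finite := by
  intro ρ
  induction ρ with
  | nil => exact Set.finite_singleton _
  | cons F ρ ih =>
    have h1 : S z (F :: ρ) = Set.image2 (fun f s => f * z (F :: ρ) * s) (F : Set G) (S z ρ) := by
      ext x
      constructor
      · rintro ⟨f, hf, s, hs, rfl⟩
        exact ⟨f, hf, s, hs, rfl⟩
      · rintro ⟨f, hf, s, hs, rfl⟩
        exact ⟨f, hf, s, hs, rfl⟩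
    rw [h1]
    exact Set.Finite.image2 _ F.finite_toSet ih

theorem S_congr {z w : List (Finset G) → G} : ∀ ρ, (∀ σ, σ <:+ ρ → z σ = w σ) → S z ρ = S w ρ := by
  intro ρ
  induction ρ with
  | nil => intro _; rfl
  | cons F ρ ih =>
    intro h
    have h1 := ih fun σ hσ => h σ (hσ.trans (List.suffix_cons _ _))
    have h2 := h (F :: ρ) List.suffix_rfl
    ext x
    show (∃ f ∈ F, ∃ s ∈ S z ρ, x = f * z (F :: ρ) * s) ↔
      (∃ f ∈ F, ∃ s ∈ S w ρ, x = f * w (F :: ρ) * s)
    rw [h1, h2]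

section build

variable [Encodable G]

theorem encode_le_of_suffix {ρ σ : List (Finset G)} (h : σ <:+ ρ) :
    Encodable.encode σ ≤ Encodable.encode ρ := by
  induction ρ with
  | nil => rw [List.suffix_nil.1 h]
  | cons F ρ ih =>
    rcases List.suffix_cons_iff.1 h with rfl | h
    · exact le_rfl
    · refine (ih h).trans ?_
      rw [Encodable.encode_list_cons]
      exact (Nat.right_le_pair _ _).trans (Nat.le_succ _)

theorem encode_tail_lt (F : Finset G) (ρ : List (Finset G)) :
    Encodable.encode ρ < Encodable.encode (F :: ρ) := by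
  rw [Encodable.encode_list_cons]
  exact Nat.lt_succ_of_le (Nat.right_le_pair _ _)

/-- The forbidden values of the label with code `m`. -/
def bad (z : List (Finset G) → G) (F : Finset G) (ρ : List (Finset G)) : Set G :=
  {g | (∃ σ ∈ {σ : List (Finset G) | Encodable.encode σ < Encodable.encode (F :: ρ)},
      ∃ s ∈ S z σ, ∃ f ∈ (F : Set G), ∃ t ∈ S z ρ,
      ∃ e ∈ {e : G | Encodable.encode e < Encodable.encode (F :: ρ)},
        g ∈ ({f⁻¹ * s * e * t⁻¹} ∪ {f⁻¹ * s * e⁻¹ * t⁻¹} : Set G)) ∨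
    (∃ f ∈ (F : Set G), ∃ f' ∈ {f' : G | f' ∈ F ∧ f⁻¹ * f' ≠ 1}, ∃ s ∈ S z ρ, ∃ t ∈ S z ρ,
      ∃ e ∈ {e : G | Encodable.encode e < Encodable.encode (F :: ρ)},
        g ∈ {g : G | g⁻¹ * (f⁻¹ * f') * g = s * e * t⁻¹})}

theorem finite_lt {α : Type} [Encodable α] (m : ℕ) : {e : α | Encodable.encode e < m}.Finite := by
  apply Set.Finite.preimage (s := {k : ℕ | k < m}) (f := Encodable.encode)
  · exact Encodable.encode_injective.injOn
  · exact Set.finite_lt_nat m

theorem bad_negl (h : ICC G) [Infinite G] (z : List (Finset G) → G) (F : Finset G)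
    (ρ : List (Finset G)) : Negl (bad z F ρ) := by
  apply Negl.union
  · apply Negl.biUnion (finite_lt _)
    intro σ _
    apply Negl.biUnion (S_finite z σ)
    intro s _
    apply Negl.biUnion F.finite_toSet
    intro f _
    apply Negl.biUnion (S_finite z ρ)
    intro t _
    apply Negl.biUnion (finite_lt _)
    intro e _
    exact (negl_singleton _).union (negl_singleton _)
  · apply Negl.biUnion F.finite_toSet
    intro f _
    apply Negl.biUnion (F.finite_toSet.subset fun f' hf' => hf'.1)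
    intro f' hf'
    apply Negl.biUnion (S_finite z ρ)
    intro s _
    apply Negl.biUnion (S_finite z ρ)
    intro t _
    apply Negl.biUnion (finite_lt _)
    intro e _
    exact negl_conj h hf'.2 _

theorem exists_good (h : ICC G) [Infinite G] (z : List (Finset G) → G) (F : Finset G)
    (ρ : List (Finset G)) : ∃ g, g ∉ bad z F ρ := by
  by_contra hc
  push Not at hc
  exact not_negl_univ ((bad_negl h z F ρ).mono fun g _ => hc g)

theorem bad_congr {z w : List (Finset G) → G} (F : Finset G) (ρ : List (Finset G))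
    (h : ∀ σ, Encodable.encode σ < Encodable.encode (F :: ρ) → z σ = w σ) :
    bad z F ρ = bad w F ρ := by
  have h1 : ∀ σ ∈ {σ : List (Finset G) | Encodable.encode σ < Encodable.encode (F :: ρ)},
      S z σ = S w σ := fun σ hσ => S_congr σ fun τ hτ =>
    h τ (lt_of_le_of_lt (encode_le_of_suffix hτ) hσ)
  have h2 : S z ρ = S w ρ := h1 ρ (encode_tail_lt F ρ)
  ext g
  unfold bad
  rw [h2]
  constructor
  · rintro (⟨σ, hσ, s, hs, hr⟩ | hr)
    · exact Or.inl ⟨σ, hσ, s, by rw [← h1 σ hσ]; exact hs, hr⟩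
    · exact Or.inr hr
  · rintro (⟨σ, hσ, s, hs, hr⟩ | hr)
    · exact Or.inl ⟨σ, hσ, s, by rw [h1 σ hσ]; exact hs, hr⟩
    · exact Or.inr hr

theorem exists_generic_aux (h : ICC G) [Infinite G] :
    ∃ z : List (Finset G) → G, ∀ F ρ, z (F :: ρ) ∉ bad z F ρ := by
  classical
  choose pick hpick using exists_good (G := G) h
  -- labels as a function of the code
  let ext : (m : ℕ) → ((i : ℕ) → i < m → G) → List (Finset G) → G := fun m w σ =>
    if hi : Encodable.encode σ < m then w (Encodable.encode σ) hi else 1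
  let step : (m : ℕ) → ((i : ℕ) → i < m → G) → G := fun m w =>
    match (Encodable.decode m : Option (List (Finset G))) with
    | some (F :: ρ) => pick (ext m w) F ρ
    | _ => 1
  let c : ℕ → G := fun m => @Nat.strongRec (fun _ => G) step m
  refine ⟨fun σ => c (Encodable.encode σ), ?_⟩
  intro F ρ
  have h1 : c (Encodable.encode (F :: ρ)) =
      pick (ext (Encodable.encode (F :: ρ)) fun i _ => c i) F ρ := by
    show @Nat.strongRec (fun _ => G) step (Encodable.encode (F :: ρ)) = _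
    rw [Nat.strongRec]
    simp only [step, Encodable.encodek]
    rfl
  show c (Encodable.encode (F :: ρ)) ∉ _
  rw [h1]
  have h2 := hpick (ext (Encodable.encode (F :: ρ)) fun i _ => c i) F ρ
  rw [bad_congr (w := fun σ => c (Encodable.encode σ)) F ρ] at h2
  · exact h2
  · intro σ hσ
    show (if hi : _ < _ then _ else _) = _
    rw [dif_pos hσ]

end build

/-- The generic tree. -/
theorem exists_generic (h : ICC G) [Infinite G] [Countable G] :
    ∃ z : List (Finset G) → G, ∀ E : Set G, E.Finite → ∃ B : Set (List (Finset G)), B.Finite ∧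
      (∀ F ρ, F :: ρ ∈ B → ρ ∈ B) ∧
      (∀ ρ σ, ρ ≠ σ → (ρ ∉ B ∨ σ ∉ B) → ∀ s ∈ S z ρ, ∀ t ∈ S z σ, s⁻¹ * t ∉ E) ∧
      (∀ F ρ, F :: ρ ∉ B → ∀ e ∈ E, (∃ s ∈ S z (F :: ρ), ∃ t ∈ S z (F :: ρ), s⁻¹ * t = e) →
        ∃ s ∈ S z ρ, ∃ t ∈ S z ρ, s⁻¹ * t = e) := by
  classical
  let _ : Encodable G := Encodable.ofCountable G
  obtain ⟨z, hz⟩ := exists_generic_aux (G := G) h
  refine ⟨z, fun E hE => ?_⟩
  obtain ⟨m, hm⟩ : ∃ m : ℕ, ∀ e ∈ E, Encodable.encode e < m := by
    obtain ⟨m, hm⟩ := (hE.image Encodable.encode).bddAbove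
    exact ⟨m + 1, fun e he => Nat.lt_succ_of_le (hm ⟨e, he, rfl⟩)⟩
  refine ⟨{σ | Encodable.encode σ < m}, finite_lt m, ?_, ?_, ?_⟩
  · intro F ρ hρ
    exact lt_trans (encode_tail_lt F ρ) hρ
  · -- main case
    have key : ∀ ρ σ : List (Finset G), Encodable.encode σ < Encodable.encode ρ →
        m ≤ Encodable.encode ρ → ∀ s ∈ S z ρ, ∀ t ∈ S z σ, s⁻¹ * t ∉ E ∧ t⁻¹ * s ∉ E := by
      intro ρ σ hlt hmρ s hs t ht
      cases ρ with
      | nil =>
        exfalso
        rw [Encodable.encode_list_nil] at hlt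
        exact absurd hlt (Nat.not_lt_zero _)
      | cons F ρ =>
        obtain ⟨f, hf, r, hr, rfl⟩ := hs
        constructor
        · intro hE'
          apply hz F ρ
          refine Or.inl ⟨σ, hlt, t, ht, f, hf, r, hr, _, lt_of_lt_of_le (hm _ hE') hmρ, ?_⟩
          right
          rw [Set.mem_singleton_iff]
          group
        · intro hE'
          apply hz F ρ
          refine Or.inl ⟨σ, hlt, t, ht, f, hf, r, hr, _, lt_of_lt_of_le (hm _ hE') hmρ, ?_⟩
          left
          rw [Set.mem_singleton_iff]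
          group
    intro ρ σ hne hB s hs t ht
    rcases lt_trichotomy (Encodable.encode σ) (Encodable.encode ρ) with hlt | heq | hlt
    · refine (key ρ σ hlt ?_ s hs t ht).1
      rcases hB with hB | hB
      · exact not_lt.1 hB
      · exact (not_lt.1 hB).trans hlt.le
    · exact absurd (Encodable.encode_injective heq).symm hne
    · refine (key σ ρ hlt ?_ t ht s hs).2
      rcases hB with hB | hB
      · exact (not_lt.1 hB).trans hlt.le
      · exact not_lt.1 hB
  · rintro F ρ hB e he ⟨s, ⟨f, hf, r, hr, rfl⟩, t, ⟨f', hf', r', hr', rfl⟩, hst⟩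
    have hmρ : m ≤ Encodable.encode (F :: ρ) := not_lt.1 hB
    by_cases hff : f⁻¹ * f' = 1
    · have hff' : f = f' := inv_mul_eq_one.1 hff
      subst hff'
      refine ⟨r, hr, r', hr', ?_⟩
      rw [← hst]
      group
    · exfalso
      apply hz F ρ
      refine Or.inr ⟨f, hf, f', ⟨hf', hff⟩, r, hr, r', hr', e, lt_of_lt_of_le (hm _ he) hmρ, ?_⟩
      show (z (F :: ρ))⁻¹ * (f⁻¹ * f') * z (F :: ρ) = r * e * r'⁻¹
      rw [← hst]
      group

end Pool.Agent.Lib.MP_5c8a88_co
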