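import Pool.Agent.Lib.MP_5c8a88_co.Bounds

/-! The games as extremal densities. -/

namespace Pool.Agent.Lib.MP_5c8a88_co

variable {G : Type} [Group G]

/-- The word `i s i s ⋯`. -/
def altL (k : ℕ) : Letter := if k % 2 = 0 then Letter.i else Letter.s

/-- The order `2m-2, 2m-1, 2m-4, 2m-3, …, 0, 1` of the variables in the product. -/
def rho (m : ℕ) (j : Fin (2 * m)) : Fin (2 * m) :=
  ⟨2 * (m - 1 - (j : ℕ) / 2) + (j : ℕ) % 2, by have := j.2; omega⟩

theorem rho_involutive (m : ℕ) : Function.Involutive (rho m) := by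
  intro j
  have := j.2
  apply Fin.ext
  simp only [rho]
  omega

def perm (m : ℕ) : Equiv.Perm (Fin (2 * m)) := (rho_involutive m).toPerm

theorem altL_succ_succ (k : ℕ) : altL (k + 1 + 1) = altL k := by
  unfold altL
  rw [show (k + 1 + 1) % 2 = k % 2 by omega]

theorem ofFn_rho (m : ℕ) (β θ : Set G → ℝ) (t : Fin (2 * m) → Set G → ℝ) :
    (List.ofFn fun l : Fin (2 * m + 1 + 1) =>
      (Fin.cons β (Fin.cons θ t) : Fin (2 * m + 1 + 1) → Set G → ℝ) (rho (m + 1) l)) =
      (List.ofFn fun l => t (rho m l)) ++ [β, θ] := by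
  rw [List.ofFn_succ', List.ofFn_succ']
  simp only [List.concat_eq_append, List.append_assoc, List.singleton_append]
  have h1 : rho (m + 1) (Fin.last (2 * m + 1)) = (0 : Fin (2 * m + 1)).succ := by
    apply Fin.ext
    simp only [rho, Fin.val_last, Fin.val_succ, Fin.val_zero]
    omega
  have h2 : rho (m + 1) (Fin.castSucc (Fin.last (2 * m))) = (0 : Fin (2 * m + 1 + 1)) := by
    apply Fin.ext
    simp only [rho, Fin.val_last, Fin.val_castSucc, Fin.val_zero]
    omega
  have h3 : ∀ l : Fin (2 * m), rho (m + 1) (Fin.castSucc (Fin.castSucc l)) =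
      (rho m l).succ.succ := by
    intro l
    have := l.2
    apply Fin.ext
    simp only [rho, Fin.val_castSucc, Fin.val_succ]
    omega
  rw [h1, h2]
  simp only [h3, Fin.cons_succ, Fin.cons_zero]

theorem value_eq (A : Set G) (m : ℕ) : ∀ τ : Set G → ℝ,
    value (G := G) (2 * m) (fun j => altL j)
      (fun ν => (List.ofFn fun l => ν (rho m l)).foldr conv τ A) = V A m τ := by
  induction m with
  | zero => intro τ; rfl
  | succ m ih =>
    intro τ
    show (⨅ β : finMeasures G, ⨆ θ : finMeasures G,
      value (2 * m) (fun j : Fin (2 * m) => altL (j.succ.succ : Fin (2 * m + 1 + 1)))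
        fun t => (List.ofFn fun l : Fin (2 * m + 1 + 1) =>
      (Fin.cons (β : Set G → ℝ) (Fin.cons (θ : Set G → ℝ) t) : Fin (2 * m + 1 + 1) → Set G → ℝ)
        (rho (m + 1) l)).foldr conv τ A) = ⨅ β : finMeasures G, ⨆ θ : finMeasures G,
          V A m (conv β (conv θ τ))
    have h1 : (fun j : Fin (2 * m) => altL (j.succ.succ : Fin (2 * m + 1 + 1))) =
        fun j : Fin (2 * m) => altL j := by
      funext j
      rw [Fin.val_succ, Fin.val_succ, altL_succ_succ]
    rw [h1]
    simp only [ofFn_rho, List.foldr_append, List.foldr_cons, List.foldr_nil, ih]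

theorem prodList_append (L : List (Set G → ℝ)) (β θ : Set G → ℝ) :
    prodList (L ++ [β, θ]) = L.foldr conv (conv β θ) := by
  induction L with
  | nil => rfl
  | cons μ L ih =>
    rw [List.foldr_cons, ← ih]
    cases L with
    | nil => rfl
    | cons ν L => rfl

theorem extremal_eq (A : Set G) (m : ℕ) :
    extremal (perm (m + 1)) (fun j => altL j) A = V A (m + 1) (dirac 1) := by
  show (⨅ β : finMeasures G, ⨆ θ : finMeasures G,
      value (2 * m) (fun j : Fin (2 * m) => altL (j.succ.succ : Fin (2 * m + 1 + 1)))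
        fun t => prodList (List.ofFn fun l : Fin (2 * m + 1 + 1) =>
      (Fin.cons (β : Set G → ℝ) (Fin.cons (θ : Set G → ℝ) t) : Fin (2 * m + 1 + 1) → Set G → ℝ)
        (rho (m + 1) l)) A) = ⨅ β : finMeasures G, ⨆ θ : finMeasures G,
          V A m (conv β (conv θ (dirac 1)))
  have h1 : (fun j : Fin (2 * m) => altL (j.succ.succ : Fin (2 * m + 1 + 1))) =
      fun j : Fin (2 * m) => altL j := by
    funext j
    rw [Fin.val_succ, Fin.val_succ, altL_succ_succ]
  rw [h1]
  have h2 : ∀ θ : finMeasures G, conv (θ : Set G → ℝ) (dirac 1) = θ := fun θ =>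
    conv_dirac_one θ.2
  simp only [ofFn_rho, prodList_append, h2]
  congr 1
  funext β
  congr 1
  funext θ
  exact value_eq A m _

theorem extremal_mem (m : ℕ) :
    (extremal (perm (m + 1)) (fun j => altL j) : Set G → ℝ) ∈ extremalDensities G := by
  refine ⟨2 * (m + 1), perm (m + 1), _, by omega, ?_, rfl⟩
  intro l hl
  exfalso
  unfold altL at hl
  split_ifs at hl <;> simp at hl

/-- On a countable ICC group with infinitely many conjugacy classes there are infinitely many
extremal densities. -/
theorem infinite_of_icc [Countable G] [Infinite (ConjClasses G)] (h : ICC G) :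
    (extremalDensities G).Infinite := by
  haveI : Infinite G := Infinite.of_surjective (ConjClasses.mk : G → ConjClasses G)
    ConjClasses.mk_surjective
  obtain ⟨z, hz⟩ := exists_generic h
  apply Set.infinite_of_injective_forall_mem
    (f := fun m : ℕ => (extremal (perm (m + 1)) (fun j => altL j) : Set G → ℝ)) _ extremal_mem
  intro n m hnm
  have key : ∀ a b : ℕ, a < b →
      (extremal (perm (a + 1)) (fun j => altL j) : Set G → ℝ) ≠
        extremal (perm (b + 1)) (fun j => altL j) := by
    intro a b hab heq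
    have h1 := V_separation (z := z) hz (Nat.succ_lt_succ hab)
    have h2 := congrFun heq (lev z (a + 1))
    rw [extremal_eq, extremal_eq] at h2
    rw [Nat.succ_eq_add_one, Nat.succ_eq_add_one, h2] at h1
    exact lt_irrefl _ h1
  rcases lt_trichotomy n m with hlt | heq | hgt
  · exact absurd hnm (key n m hlt)
  · exact heq
  · exact absurd hnm.symm (key m n hgt)

end Pool.Agent.Lib.MP_5c8a88_co
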