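import Pool.Agent.Lib.MP_5c8a88_co.Defs

/-! Finitely supported measures and their products. -/

namespace Pool.Agent.Lib.MP_5c8a88_co

set_option linter.unusedSectionVars false

variable {G : Type} [Group G]

theorem dirac_nonneg (x : G) (A : Set G) : 0 ≤ dirac x A := by
  unfold dirac; split_ifs <;> norm_num

theorem dirac_le_one (x : G) (A : Set G) : dirac x A ≤ 1 := by
  unfold dirac; split_ifs <;> norm_num

theorem dirac_of_mem {x : G} {A : Set G} (h : x ∈ A) : dirac x A = 1 := by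
  unfold dirac; rw [if_pos h]

theorem dirac_of_not_mem {x : G} {A : Set G} (h : x ∉ A) : dirac x A = 0 := by
  unfold dirac; rw [if_neg h]

theorem dirac_mul (x y : G) (A : Set G) : dirac y {z | x * z ∈ A} = dirac (x * y) A := by
  unfold dirac; rfl

theorem mem_fin_of_fintype {ι : Type} [Fintype ι] (x : ι → G) (c : ι → ℝ) (h0 : ∀ i, 0 ≤ c i)
    (h1 : ∑ i, c i = 1) : (fun A => ∑ i, c i * dirac (x i) A) ∈ finMeasures G := by
  let e := Fintype.equivFin ι
  refine ⟨Fintype.card ι, fun j => x (e.symm j), fun j => c (e.symm j), fun j => h0 _, ?_, ?_⟩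
  · rw [← h1]
    exact Equiv.sum_comp e.symm c
  · funext A
    exact (Equiv.sum_comp e.symm fun i => c i * dirac (x i) A).symm

theorem dirac_mem (x : G) : dirac x ∈ finMeasures G := by
  have := mem_fin_of_fintype (ι := Unit) (fun _ => x) (fun _ => 1) (fun _ => zero_le_one)
    (by simp)
  simpa using this

instance : Nonempty (finMeasures G) := ⟨⟨dirac 1, dirac_mem 1⟩⟩

theorem conv_sum {k : ℕ} (x : Fin k → G) (c : Fin k → ℝ) (ν : Set G → ℝ) (A : Set G) :
    conv (fun B => ∑ j, c j * dirac (x j) B) ν A = ∑ j, c j * ν {y | x j * y ∈ A} := by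
  unfold conv
  have h1 : ∀ g : G, (∑ j, c j * dirac (x j) {g}) * ν {y | g * y ∈ A} =
      ∑ j, c j * dirac (x j) {g} * ν {y | g * y ∈ A} := fun g => Finset.sum_mul _ _ _
  simp only [h1]
  rw [finsum_sum_comm]
  · apply Finset.sum_congr rfl
    intro j _
    rw [finsum_eq_single _ (x j)]
    · rw [dirac_of_mem (Set.mem_singleton _), mul_one]
    · intro g hg
      rw [dirac_of_not_mem]
      · simp
      · intro h
        exact hg (Set.mem_singleton_iff.1 h).symm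
  · intro j _
    apply (Set.finite_singleton (x j)).subset
    intro g hg
    by_contra hne
    apply hg
    have : dirac (x j) {g} = 0 := by
      rw [dirac_of_not_mem]
      intro h
      exact hne (Set.mem_singleton_iff.1 h).symm
    show c j * dirac (x j) {g} * ν {y | g * y ∈ A} = 0
    rw [this]
    simp

theorem conv_mem {μ ν : Set G → ℝ} (hμ : μ ∈ finMeasures G) (hν : ν ∈ finMeasures G) :
    conv μ ν ∈ finMeasures G := by
  obtain ⟨k, x, c, hc0, hc1, rfl⟩ := hμ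
  obtain ⟨l, y, d, hd0, hd1, rfl⟩ := hν
  have h := mem_fin_of_fintype (ι := Fin k × Fin l) (fun p => x p.1 * y p.2)
    (fun p => c p.1 * d p.2) (fun p => mul_nonneg (hc0 _) (hd0 _)) (by
      rw [Fintype.sum_prod_type]
      simp only [← Finset.mul_sum, hd1, mul_one, hc1])
  have he : conv (fun A => ∑ j, c j * dirac (x j) A) (fun A => ∑ j, d j * dirac (y j) A) =
      fun A => ∑ p : Fin k × Fin l, c p.1 * d p.2 * dirac (x p.1 * y p.2) A := by
    funext A
    rw [conv_sum, Fintype.sum_prod_type]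
    apply Finset.sum_congr rfl
    intro i _
    rw [Finset.mul_sum]
    apply Finset.sum_congr rfl
    intro j _
    rw [dirac_mul, mul_assoc]
  rw [he]
  exact h

theorem nonneg_of_mem {τ : Set G → ℝ} (h : τ ∈ finMeasures G) (A : Set G) : 0 ≤ τ A := by
  obtain ⟨k, x, c, hc0, hc1, rfl⟩ := h
  exact Finset.sum_nonneg fun j _ => mul_nonneg (hc0 j) (dirac_nonneg _ _)

theorem le_one_of_mem {τ : Set G → ℝ} (h : τ ∈ finMeasures G) (A : Set G) : τ A ≤ 1 := by
  obtain ⟨k, x, c, hc0, hc1, rfl⟩ := h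
  show ∑ j, c j * dirac (x j) A ≤ 1
  rw [← hc1]
  apply Finset.sum_le_sum
  intro j _
  calc c j * dirac (x j) A ≤ c j * 1 := mul_le_mul_of_nonneg_left (dirac_le_one _ _) (hc0 j)
    _ = c j := mul_one _

theorem conv_dirac_one {τ : Set G → ℝ} (h : τ ∈ finMeasures G) : conv τ (dirac 1) = τ := by
  obtain ⟨k, x, c, hc0, hc1, rfl⟩ := h
  funext A
  rw [conv_sum]
  apply Finset.sum_congr rfl
  intro j _
  rw [dirac_mul, mul_one]

/-- Averages: the value of `μ * τ` on `{y | x y ∈ A}`. -/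
theorem conv_shift {k : ℕ} (g : Fin k → G) (c : Fin k → ℝ) (τ : Set G → ℝ) (x : G) (A : Set G) :
    conv (fun B => ∑ j, c j * dirac (g j) B) τ {y | x * y ∈ A} =
      ∑ j, c j * τ {y | x * g j * y ∈ A} := by
  rw [conv_sum]
  apply Finset.sum_congr rfl
  intro j _
  congr 2
  ext y
  simp only [Set.mem_ofPred_eq, mul_assoc]

theorem sum_le_of_le {k : ℕ} {c : Fin k → ℝ} (hc0 : ∀ j, 0 ≤ c j) (hc1 : ∑ j, c j = 1)
    {f : Fin k → ℝ} {b : ℝ} (h : ∀ j, f j ≤ b) : ∑ j, c j * f j ≤ b := by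
  calc ∑ j, c j * f j ≤ ∑ j, c j * b :=
        Finset.sum_le_sum fun j _ => mul_le_mul_of_nonneg_left (h j) (hc0 j)
    _ = b := by rw [← Finset.sum_mul, hc1, one_mul]

theorem exists_lt_of_lt_sum {k : ℕ} {c : Fin k → ℝ} (hc0 : ∀ j, 0 ≤ c j) (hc1 : ∑ j, c j = 1)
    {f : Fin k → ℝ} {b : ℝ} (h : b < ∑ j, c j * f j) : ∃ j, b < f j := by
  by_contra hc
  push Not at hc
  exact absurd (sum_le_of_le hc0 hc1 hc) (not_le.2 h)

/-- The game value with a given tail. -/
noncomputable def V (A : Set G) : ℕ → (Set G → ℝ) → ℝ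
  | 0, τ => τ A
  | k + 1, τ => ⨅ β : finMeasures G, ⨆ θ : finMeasures G, V A k (conv β (conv θ τ))

theorem V_mem (A : Set G) (k : ℕ) : ∀ {τ : Set G → ℝ}, τ ∈ finMeasures G →
    0 ≤ V A k τ ∧ V A k τ ≤ 1 := by
  induction k with
  | zero => intro τ h; exact ⟨nonneg_of_mem h A, le_one_of_mem h A⟩
  | succ k ih =>
    intro τ h
    have h1 : ∀ β θ : finMeasures G, 0 ≤ V A k (conv β (conv θ τ)) ∧
        V A k (conv β (conv θ τ)) ≤ 1 := fun β θ => ih (conv_mem β.2 (conv_mem θ.2 h))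
    have h2 : ∀ β : finMeasures G, 0 ≤ ⨆ θ : finMeasures G, V A k (conv β (conv θ τ)) :=
      fun β => Real.iSup_nonneg fun θ => (h1 β θ).1
    have h3 : ∀ β : finMeasures G, ⨆ θ : finMeasures G, V A k (conv β (conv θ τ)) ≤ 1 :=
      fun β => ciSup_le fun θ => (h1 β θ).2
    refine ⟨Real.iInf_nonneg h2, ?_⟩
    show ⨅ β : finMeasures G, ⨆ θ : finMeasures G, V A k (conv β (conv θ τ)) ≤ 1
    refine (ciInf_le ⟨0, ?_⟩ (Classical.arbitrary _)).trans (h3 _)
    rintro _ ⟨β, rfl⟩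
    exact h2 β

theorem V_succ_le {A : Set G} {k : ℕ} {τ : Set G → ℝ} (hτ : τ ∈ finMeasures G) {b : ℝ}
    {β : Set G → ℝ} (hβ : β ∈ finMeasures G)
    (h : ∀ θ ∈ finMeasures G, V A k (conv β (conv θ τ)) ≤ b) : V A (k + 1) τ ≤ b := by
  have h2 : ∀ β : finMeasures G, 0 ≤ ⨆ θ : finMeasures G, V A k (conv β (conv θ τ)) :=
    fun β => Real.iSup_nonneg fun θ => (V_mem A k (conv_mem β.2 (conv_mem θ.2 hτ))).1
  show ⨅ β : finMeasures G, ⨆ θ : finMeasures G, V A k (conv β (conv θ τ)) ≤ b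
  refine (ciInf_le ⟨0, ?_⟩ ⟨β, hβ⟩).trans (ciSup_le fun θ => h θ θ.2)
  rintro _ ⟨β, rfl⟩
  exact h2 β

theorem le_V_succ {A : Set G} {k : ℕ} {τ : Set G → ℝ} (hτ : τ ∈ finMeasures G) {b : ℝ}
    (h : ∀ β ∈ finMeasures G, ∃ θ ∈ finMeasures G, b ≤ V A k (conv β (conv θ τ))) :
    b ≤ V A (k + 1) τ := by
  show b ≤ ⨅ β : finMeasures G, ⨆ θ : finMeasures G, V A k (conv β (conv θ τ))
  refine le_ciInf fun β => ?_
  obtain ⟨θ, hθ, hb⟩ := h β β.2
  refine hb.trans (le_ciSup (f := fun θ : finMeasures G => V A k (conv β (conv θ τ)))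
    ⟨1, ?_⟩ ⟨θ, hθ⟩)
  rintro _ ⟨θ, rfl⟩
  exact (V_mem A k (conv_mem β.2 (conv_mem θ.2 hτ))).2

/-- If all left translates of `A` have `τ`-measure at most `b` then the values stay below `b`. -/
theorem V_le_of_shift {A : Set G} {b : ℝ} (k : ℕ) : ∀ {τ : Set G → ℝ}, τ ∈ finMeasures G →
    (∀ x : G, τ {y | x * y ∈ A} ≤ b) → V A k τ ≤ b := by
  induction k with
  | zero =>
    intro τ _ h
    have := h 1
    simpa [V] using this
  | succ k ih =>
    intro τ hτ h
    refine V_succ_le hτ (dirac_mem 1) fun θ hθ => ?_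
    have hs : ∀ μ ∈ finMeasures G, ∀ σ : Set G → ℝ, (∀ x : G, σ {y | x * y ∈ A} ≤ b) →
        ∀ x : G, conv μ σ {y | x * y ∈ A} ≤ b := by
      intro μ hμ σ hσ x
      obtain ⟨k, g, c, hc0, hc1, rfl⟩ := hμ
      rw [conv_shift]
      exact sum_le_of_le hc0 hc1 fun j => hσ _
    exact ih (conv_mem (dirac_mem 1) (conv_mem hθ hτ)) (hs _ (dirac_mem 1) _ (hs _ hθ _ h))

end Pool.Agent.Lib.MP_5c8a88_co
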